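import Pool.Agent.H319R2.LeighBridge

/-!
# The number of the cyclic integers in the contracting classes of generalised Collatz maps: power saving
-/

set_option autoImplicit false

namespace Pool.Agent.Q319.CY

open Finset Filter Pool.Agent.H319R2.Leigh

variable {d : ℕ} {m r b : ℤ → ℤ} {e : ℤ → ℕ} {C : Finset (ℤ × ℕ)} {ρ : ℤ × ℕ → ℝ}

/-- In a class with `Λ_C < 1` at most `K X ^ (1 - c)` integers of absolute value at most `X` are periodic. -/
theorem per_cnt (D : Data d m r b e) (hC : Class d m r e C ρ) (hL : Lam d m C ρ < 1) :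
    ∃ K c : ℝ, 0 < c ∧ c ≤ 1 ∧ ∀ X : ℝ, 1 ≤ X → ∀ F : Finset ℤ,
      (∀ x ∈ F, |(x : ℝ)| ≤ X ∧ (x ∈ S d C ∧ ∃ p : ℕ, 1 ≤ p ∧ (T d m r)^[p] x = x)) →
      (F.card : ℝ) ≤ K * X ^ (1 - c) := by
  classical
  obtain ⟨hinv, η, hη0, hη1, hsm⟩ := small D hC hL
  obtain ⟨A, hA0, hA⟩ := (gm D).descent (S d C) hinv η hη0 hη1 hsm
  obtain ⟨A1, hA1, h1⟩ := (gm D).orbit_sparse (S d C) hinv η hη0 hsm
  have hT : (gm D).T = T d m r := rfl
  have hd' : (gm D).d = d := rfl
  rw [hT, hd'] at hA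
  rw [hT] at h1
  obtain ⟨c, hc⟩ : ∃ c : ℝ, c = (1 - η) ^ 2 / 4 := ⟨_, rfl⟩
  have hc0 : 0 < c := by rw [hc]; have : 0 < 1 - η := by linarith
                         positivity
  have hcη : 2 * c ≤ (1 - η) / 2 := by rw [hc]; nlinarith
  have hc1 : c ≤ 1 := by rw [hc]; nlinarith
  -- the logarithm
  have hlog : ∃ K₁ : ℝ, 0 ≤ K₁ ∧ ∀ X : ℝ, 2 ≤ X → Real.log X ^ (2 * d + 4) ≤ K₁ * X ^ c := by
    refine ⟨(((2 * d + 4 : ℕ) : ℝ) / c) ^ (2 * d + 4), by positivity, fun X hX => ?_⟩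
    have hX0 : 0 < X := by linarith
    have hn : (0 : ℝ) < ((2 * d + 4 : ℕ) : ℝ) := by positivity
    have h2 := Real.log_le_rpow_div hX0.le (div_pos hc0 hn)
    have h3 : 0 ≤ Real.log X := Real.log_nonneg (by linarith)
    calc Real.log X ^ (2 * d + 4) ≤ (X ^ (c / ((2 * d + 4 : ℕ) : ℝ)) / (c / ((2 * d + 4 : ℕ) : ℝ))) ^ (2 * d + 4) :=
          pow_le_pow_left₀ h3 h2 _
      _ = (((2 * d + 4 : ℕ) : ℝ) / c) ^ (2 * d + 4) * (X ^ (c / ((2 * d + 4 : ℕ) : ℝ))) ^ (2 * d + 4) := by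
          rw [← mul_pow]
          congr 1
          field_simp
      _ = _ := by
          congr 1
          rw [← Real.rpow_natCast, ← Real.rpow_mul hX0.le]
          congr 1
          field_simp
  obtain ⟨K₁, hK₁0, hK₁⟩ := hlog
  refine ⟨A * K₁ + 3 * A1 + 3, c, hc0, hc1, fun X hX F hF => ?_⟩
  have hX0 : 0 < X := by linarith
  have hXc : 1 ≤ X ^ (1 - c) := Real.one_le_rpow hX (by linarith)
  by_cases hX2 : X < 2
  · have hsub : F ⊆ Icc (-1) 1 := by
      intro x hx
      have h2 := abs_le.1 (hF x hx).1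
      rw [mem_Icc]
      have h3 : (x : ℝ) < 2 := by linarith [h2.2]
      have h4 : (-2 : ℝ) < x := by linarith [h2.1]
      have h5 : x < 2 := by exact_mod_cast h3
      have h6 : -2 < x := by exact_mod_cast h4
      omega
    have h2 := card_le_card hsub
    have h3 : (Icc (-1 : ℤ) 1).card = 3 := by simp
    rw [h3] at h2
    have h4 : (F.card : ℝ) ≤ 3 := by exact_mod_cast h2
    have h5 : 0 ≤ (A * K₁ + 3 * A1) * X ^ (1 - c) := by positivity
    nlinarith
  push Not at hX2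
  obtain ⟨Y, hY⟩ : ∃ Y : ℝ, Y = X ^ ((1 - η) / 2) := ⟨_, rfl⟩
  have hY1 : 1 ≤ Y := by rw [hY]; exact Real.one_le_rpow hX (by linarith)
  have hsplit : F.card = (F.filter (fun x => ∀ n : ℕ, Y ≤ |(((T d m r)^[n] x : ℤ) : ℝ)|)).card +
      (F.filter (fun x => ¬ ∀ n : ℕ, Y ≤ |(((T d m r)^[n] x : ℤ) : ℝ)|)).card :=
    (card_filter_add_card_filter_not _).symm
  have hYη : Y ^ (η - 1) = X ^ (-(2 * c)) := by
    rw [hY, ← Real.rpow_mul hX0.le]
    congr 1
    rw [hc]
    ring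
  have ha : ((F.filter (fun x => ∀ n : ℕ, Y ≤ |(((T d m r)^[n] x : ℤ) : ℝ)|)).card : ℝ) ≤ A * K₁ * X ^ (1 - c) := by
    have h2 := hA X Y hX2 hY1 (F.filter (fun x => ∀ n : ℕ, Y ≤ |(((T d m r)^[n] x : ℤ) : ℝ)|)) (fun x hx => by
      rw [mem_filter] at hx
      exact ⟨(hF x hx.1).2.1, (hF x hx.1).1, hx.2⟩)
    refine h2.trans ?_
    rw [hYη]
    calc A * X * Real.log X ^ (2 * d + 4) * X ^ (-(2 * c)) ≤ A * X * (K₁ * X ^ c) * X ^ (-(2 * c)) := by
          have := hK₁ X hX2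
          gcongr
      _ = A * K₁ * (X * X ^ c * X ^ (-(2 * c))) := by ring
      _ = _ := by
          congr 1
          nth_rewrite 1 [← Real.rpow_one X]
          rw [← Real.rpow_add hX0, ← Real.rpow_add hX0]
          congr 1
          ring
  have hb : ((F.filter (fun x => ¬ ∀ n : ℕ, Y ≤ |(((T d m r)^[n] x : ℤ) : ℝ)|)).card : ℝ) ≤
      3 * A1 * X ^ (1 - c) := by
    set G := F.filter (fun x => ¬ ∀ n : ℕ, Y ≤ |(((T d m r)^[n] x : ℤ) : ℝ)|) with hG
    set Z : Finset ℤ := Icc (-⌊Y⌋) ⌊Y⌋ with hZ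
    have hsub : G ⊆ Z.biUnion (fun z => G.filter (fun x => z ∈ S d C ∧ ∃ i : ℕ, (T d m r)^[i] z = x)) := by
      intro x hx
      rw [mem_biUnion]
      have hx' := hx
      rw [hG, mem_filter] at hx'
      obtain ⟨hxF, hxn⟩ := hx'
      push Not at hxn
      obtain ⟨n, hn⟩ := hxn
      obtain ⟨-, hxS, p, hp, hper⟩ := hF x hxF
      refine ⟨(T d m r)^[n] x, ?_, ?_⟩
      · rw [hZ, mem_Icc]
        have h2 := abs_lt.1 hn
        constructor
        · have h3 : ((-((T d m r)^[n] x) : ℤ) : ℝ) ≤ Y := by push_cast; linarith [h2.1]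
          have := Int.le_floor.2 h3
          omega
        · exact Int.le_floor.2 h2.2.le
      · rw [mem_filter]
        refine ⟨hx, ?_, ?_⟩
        · have : ∀ k : ℕ, (T d m r)^[k] x ∈ S d C := by
            intro k
            induction k with
            | zero => simpa using hxS
            | succ k ih =>
              rw [Function.iterate_succ_apply']
              exact hinv _ ih
          exact this n
        · -- go on to the next multiple of the period
          refine ⟨p * n - n, ?_⟩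
          rw [← Function.iterate_add_apply]
          have h4 : p * n - n + n = p * n := Nat.sub_add_cancel (Nat.le_mul_of_pos_left n hp)
          rw [h4, Function.iterate_mul]
          exact Function.iterate_fixed hper n
    have h2 : (G.card : ℝ) ≤ ∑ z ∈ Z, ((G.filter (fun x => z ∈ S d C ∧ ∃ i : ℕ, (T d m r)^[i] z = x)).card : ℝ) := by
      have := (card_le_card hsub).trans card_biUnion_le
      exact_mod_cast this
    have h3 : ∀ z ∈ Z, ((G.filter (fun x => z ∈ S d C ∧ ∃ i : ℕ, (T d m r)^[i] z = x)).card : ℝ) ≤ A1 * X ^ η := by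
      intro z _
      by_cases hz : z ∈ S d C
      · refine h1 z hz X hX _ (fun x hx => ?_)
        rw [mem_filter] at hx
        obtain ⟨hxG, -, hi⟩ := hx
        rw [hG, mem_filter] at hxG
        exact ⟨hi, (hF x hxG.1).1⟩
      · have : G.filter (fun x => z ∈ S d C ∧ ∃ i : ℕ, (T d m r)^[i] z = x) = ∅ := by
          apply filter_eq_empty_iff.2
          intro x _ hx
          exact hz hx.1
        rw [this, card_empty, Nat.cast_zero]
        positivity
    have h4 : (Z.card : ℝ) ≤ 3 * Y := by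
      rw [hZ, Int.card_Icc]
      have h5 : (⌊Y⌋ : ℝ) ≤ Y := Int.floor_le Y
      have h6 : 0 ≤ ⌊Y⌋ := Int.floor_nonneg.2 (by linarith)
      have h7 : (((⌊Y⌋ + 1 - -⌊Y⌋).toNat : ℕ) : ℝ) = 2 * (⌊Y⌋ : ℝ) + 1 := by
        have : (((⌊Y⌋ + 1 - -⌊Y⌋).toNat : ℕ) : ℤ) = 2 * ⌊Y⌋ + 1 := by
          rw [Int.toNat_of_nonneg (by omega)]
          ring
        exact_mod_cast this
      rw [h7]
      linarith
    calc (G.card : ℝ) ≤ ∑ z ∈ Z, A1 * X ^ η := h2.trans (sum_le_sum h3)
      _ = Z.card * (A1 * X ^ η) := by rw [sum_const, nsmul_eq_mul]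
      _ ≤ (3 * Y) * (A1 * X ^ η) := mul_le_mul_of_nonneg_right h4 (by positivity)
      _ = 3 * A1 * X ^ ((1 - η) / 2 + η) := by
          rw [hY, Real.rpow_add hX0]
          ring
      _ ≤ _ := by
          apply mul_le_mul_of_nonneg_left _ (by positivity)
          exact Real.rpow_le_rpow_of_exponent_le hX (by linarith)
  rw [hsplit]
  push_cast
  nlinarith

end Pool.Agent.Q319.CY
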